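import Pool.Agent.Helper52.Geproci.Proof

/-!
# Nontrivial `(a, b)`-geproci sets have unexpected cones of degrees `a` and `b`
-/

set_option autoImplicit false

open scoped LinearAlgebra.Projectivization
open Pool.Agent.Helper52.Geproci

namespace Pool.Agent.Results.MP_69376a_ag.UnexpectedCones

/-- **Theorem.** Let `K` be an algebraically closed field of characteristic zero and let
`Z ⊆ P^3` be an `(a, b)`-geproci set which is not contained in a plane.
* If `Z` is not a grid, then `Z` satisfies `C(a)` and `C(b)`.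
* More generally `Z`, grid or not, satisfies `C(t)` for all `t` with `a ≤ t ≤ a + b - 3`. -/
theorem result (K : Type*) [Field K] [IsAlgClosed K] [CharZero K] (a b : ℕ)
    (Z : Set (ℙ K (Fin 4 → K))) (hZ : IsGeproci a b Z) (hnd : ¬ InPlane Z) :
    ((¬ ∃ a' b', IsGrid a' b' Z) → CondC a Z ∧ CondC b Z) ∧
      ∀ t, a ≤ t → t + 3 ≤ a + b → CondC t Z := by
  have : Infinite K := IsAlgClosed.instInfinite
  have ha := two_le hZ hnd
  have hab : a ≤ b := hZ.1
  refine ⟨fun hng => ?_, fun t h1 h2 => condC_of hZ hnd ha h1 h2⟩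
  have ha3 : 3 ≤ a := by
    rcases Nat.lt_or_ge a 3 with h | h
    · exfalso
      have ha2 : a = 2 := by omega
      subst ha2
      exact hng ⟨2, b, grid_of_two two_ne_zero hZ hnd⟩
    · exact h
  exact ⟨condC_of hZ hnd ha le_rfl (by omega), condC_of hZ hnd ha hab (by omega)⟩

end Pool.Agent.Results.MP_69376a_ag.UnexpectedCones
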